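import Pool.Agent.Helper87.NA.All

set_option autoImplicit false

open MeasureTheory ProbabilityTheory Pool.H65.PS

namespace Pool.Agent.Results.MP_c6cf29_pr.AnonymousRules

/-- Three candidates, every correlation `ρ ∈ [0,1]`. For every `ε > 0` there is `n0` such that for all `n ≥ n0` voters and
every ANONYMOUS rule `f : [3]^n → Δ₃` (`f` is invariant under permutations of the voters; no assumption on influences,
balance or neutrality) the noise stability of `f` exceeds that of plurality by at most
`∑_j ((1-ρ²) (E f_j - 1/3)² + ρ² E (E[f_j | N₁²+N₂²+N₃²] - 1/3)²) + ε`, where `N_a` is the number of votes for `a`; if `f` is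
also cyclically neutral (`f(ω+1)_{j+1} = f(ω)_j`) then it exceeds that of plurality by at most `ε`.
Everything is written out as in the frozen statement, with `m = 3`. -/
theorem result :
    ∀ ρ : ℝ, 0 ≤ ρ → ρ ≤ 1 → ∀ ε : ℝ, 0 < ε → ∃ n0 : ℕ, ∀ n : ℕ, n0 ≤ n →
      ∀ f : (Fin n → Fin 3) → Fin 3 → ℝ,
        (∀ ω, f ω ∈ stdSimplex ℝ (Fin 3)) →
        (∀ (π : Equiv.Perm (Fin n)) (ω : Fin n → Fin 3), f (fun i => ω (π i)) = f ω) →
        (∑ j : Fin 3, (((3 : ℕ) : ℝ) ^ n)⁻¹ *
            ∑ ω : Fin n → Fin 3, ∑ δ : Fin n → Fin 3,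
              f ω j *
              (∏ i : Fin n, if δ i = ω i then (1 + (((3 : ℕ) : ℝ) - 1) * ρ) / ((3 : ℕ) : ℝ)
                else (1 - ρ) / ((3 : ℕ) : ℝ)) *
              f δ j
          ≤ ∑ j : Fin 3, (((3 : ℕ) : ℝ) ^ n)⁻¹ *
              ∑ ω : Fin n → Fin 3, ∑ δ : Fin n → Fin 3,
                (if (∃ k : Fin 3, ∀ l : Fin 3, l ≠ k →
                      (Finset.univ.filter (fun i => ω i = l)).card <
                        (Finset.univ.filter (fun i => ω i = k)).card)
                  then (if (∀ l : Fin 3, l ≠ j →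
                      (Finset.univ.filter (fun i => ω i = l)).card <
                        (Finset.univ.filter (fun i => ω i = j)).card) then (1 : ℝ) else 0)
                  else ((3 : ℕ) : ℝ)⁻¹) *
                (∏ i : Fin n, if δ i = ω i then (1 + (((3 : ℕ) : ℝ) - 1) * ρ) / ((3 : ℕ) : ℝ)
                  else (1 - ρ) / ((3 : ℕ) : ℝ)) *
                (if (∃ k : Fin 3, ∀ l : Fin 3, l ≠ k →
                      (Finset.univ.filter (fun i => δ i = l)).card <
                        (Finset.univ.filter (fun i => δ i = k)).card)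
                  then (if (∀ l : Fin 3, l ≠ j →
                      (Finset.univ.filter (fun i => δ i = l)).card <
                        (Finset.univ.filter (fun i => δ i = j)).card) then (1 : ℝ) else 0)
                  else ((3 : ℕ) : ℝ)⁻¹)
            + ∑ j : Fin 3,
              ((1 - ρ ^ 2) * ((((3 : ℕ) : ℝ) ^ n)⁻¹ * ∑ ω : Fin n → Fin 3, f ω j - 1 / 3) ^ 2
                + ρ ^ 2 * ((((3 : ℕ) : ℝ) ^ n)⁻¹ * ∑ ω : Fin n → Fin 3,
                  ((∑ δ ∈ Finset.univ.filter (fun δ : Fin n → Fin 3 =>
                        ∑ a, (Finset.univ.filter (fun i => δ i = a)).card ^ 2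
                          = ∑ a, (Finset.univ.filter (fun i => ω i = a)).card ^ 2), f δ j) /
                      ((Finset.univ.filter (fun δ : Fin n → Fin 3 =>
                        ∑ a, (Finset.univ.filter (fun i => δ i = a)).card ^ 2
                          = ∑ a, (Finset.univ.filter (fun i => ω i = a)).card ^ 2)).card : ℝ)
                    - 1 / 3) ^ 2))
            + ε) ∧
        ((∀ (ω : Fin n → Fin 3) (j : Fin 3), f (fun i => ω i + 1) (j + 1) = f ω j) →
          ∑ j : Fin 3, (((3 : ℕ) : ℝ) ^ n)⁻¹ *
            ∑ ω : Fin n → Fin 3, ∑ δ : Fin n → Fin 3,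
              f ω j *
              (∏ i : Fin n, if δ i = ω i then (1 + (((3 : ℕ) : ℝ) - 1) * ρ) / ((3 : ℕ) : ℝ)
                else (1 - ρ) / ((3 : ℕ) : ℝ)) *
              f δ j
          ≤ ∑ j : Fin 3, (((3 : ℕ) : ℝ) ^ n)⁻¹ *
              ∑ ω : Fin n → Fin 3, ∑ δ : Fin n → Fin 3,
                (if (∃ k : Fin 3, ∀ l : Fin 3, l ≠ k →
                      (Finset.univ.filter (fun i => ω i = l)).card <
                        (Finset.univ.filter (fun i => ω i = k)).card)
                  then (if (∀ l : Fin 3, l ≠ j →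
                      (Finset.univ.filter (fun i => ω i = l)).card <
                        (Finset.univ.filter (fun i => ω i = j)).card) then (1 : ℝ) else 0)
                  else ((3 : ℕ) : ℝ)⁻¹) *
                (∏ i : Fin n, if δ i = ω i then (1 + (((3 : ℕ) : ℝ) - 1) * ρ) / ((3 : ℕ) : ℝ)
                  else (1 - ρ) / ((3 : ℕ) : ℝ)) *
                (if (∃ k : Fin 3, ∀ l : Fin 3, l ≠ k →
                      (Finset.univ.filter (fun i => δ i = l)).card <
                        (Finset.univ.filter (fun i => δ i = k)).card)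
                  then (if (∀ l : Fin 3, l ≠ j →
                      (Finset.univ.filter (fun i => δ i = l)).card <
                        (Finset.univ.filter (fun i => δ i = j)).card) then (1 : ℝ) else 0)
                  else ((3 : ℕ) : ℝ)⁻¹) + ε) := by
  intro ρ h0 h1 ε hε
  obtain ⟨n0, hn0⟩ := Pool.H87.NA.main ρ ε h0 h1 hε
  refine ⟨n0, fun n hn f hf ha => ?_⟩
  have h := hn0 n hn f hf fun j π ω => by
    show f (fun i => ω (π i)) j = f ω j
    rw [ha π ω]
  have e : ∀ j : Fin 3, stab ρ (fun ω : Fin n → Fin 3 => plur ω j) = (((3 : ℕ) : ℝ) ^ n)⁻¹ *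
              ∑ ω : Fin n → Fin 3, ∑ δ : Fin n → Fin 3,
                (if (∃ k : Fin 3, ∀ l : Fin 3, l ≠ k →
                      (Finset.univ.filter (fun i => ω i = l)).card <
                        (Finset.univ.filter (fun i => ω i = k)).card)
                  then (if (∀ l : Fin 3, l ≠ j →
                      (Finset.univ.filter (fun i => ω i = l)).card <
                        (Finset.univ.filter (fun i => ω i = j)).card) then (1 : ℝ) else 0)
                  else ((3 : ℕ) : ℝ)⁻¹) *
                (∏ i : Fin n, if δ i = ω i then (1 + (((3 : ℕ) : ℝ) - 1) * ρ) / ((3 : ℕ) : ℝ)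
                  else (1 - ρ) / ((3 : ℕ) : ℝ)) *
                (if (∃ k : Fin 3, ∀ l : Fin 3, l ≠ k →
                      (Finset.univ.filter (fun i => δ i = l)).card <
                        (Finset.univ.filter (fun i => δ i = k)).card)
                  then (if (∀ l : Fin 3, l ≠ j →
                      (Finset.univ.filter (fun i => δ i = l)).card <
                        (Finset.univ.filter (fun i => δ i = j)).card) then (1 : ℝ) else 0)
                  else ((3 : ℕ) : ℝ)⁻¹) := by
    intro j
    unfold stab plur cnt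
    congr!
  have e' := Finset.sum_congr (rfl : (Finset.univ : Finset (Fin 3)) = Finset.univ) fun j _ => e j
  rw [e'] at h
  refine ⟨h, fun hneu => ?_⟩
  have hN := Pool.H87.NA.pN n f (fun ω => (hf ω).2) hneu
  have hz : ∑ j, ((1 - ρ ^ 2) * (av (fun ω => f ω j) - 1 / 3) ^ 2
        + ρ ^ 2 * av (fun ω => (Pool.H87.NA.AA (fun ω => f ω j) ω - 1 / 3) ^ 2)) = 0 := by
    refine Finset.sum_eq_zero fun j _ => ?_
    obtain ⟨hA, hav⟩ := hN j
    simp only [hA, hav, sub_self]
    unfold av
    simp
  rw [hz, add_zero] at h
  exact h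

end Pool.Agent.Results.MP_c6cf29_pr.AnonymousRules
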