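import Pool.Agent.Helper65.PS.Fin

set_option autoImplicit false

open MeasureTheory ProbabilityTheory

namespace Pool.Agent.Results.MP_c6cf29_pr.FirstOrder

/-- For every number `m ≥ 2` of candidates the plurality-is-stablest inequality holds to first order in `ρ`:
for every `ε > 0` there are `τ > 0` and `N₀` such that for all `N ≥ N₀`, all `ρ ∈ [0,1]` and every
balanced simplex-valued `f` on `[m]^n` (any `n`) with all influences at most `τ`, the noise stability of `f` is
at most that of plurality on `N` voters plus `ρ² (1 - 1/m - κ_m) + ρ ε`, where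
`κ_m = (E max_j g_j)² / (m - 1)` for independent standard Gaussians `g_1, ..., g_m`. -/
theorem result :
    ∀ m : ℕ, 2 ≤ m → ∀ ε : ℝ, ε > 0 → ∃ τ : ℝ, τ > 0 ∧ ∃ N₀ : ℕ, ∀ N : ℕ, N₀ ≤ N →
      ∀ ρ : ℝ, 0 ≤ ρ → ρ ≤ 1 →
      ∀ n : ℕ, ∀ f : (Fin n → Fin m) → Fin m → ℝ,
        (∀ ω, f ω ∈ stdSimplex ℝ (Fin m)) →
        (∀ j : Fin m, ((m : ℝ) ^ n)⁻¹ * ∑ ω : Fin n → Fin m, f ω j = 1 / (m : ℝ)) →
        (∀ i : Fin n, ∀ j : Fin m,
          ((m : ℝ) ^ n)⁻¹ * ∑ ω : Fin n → Fin m,
            (f ω j - (m : ℝ)⁻¹ * ∑ a : Fin m, f (Function.update ω i a) j) ^ 2 ≤ τ) →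
        ∑ j : Fin m, ((m : ℝ) ^ n)⁻¹ *
          ∑ ω : Fin n → Fin m, ∑ δ : Fin n → Fin m,
            f ω j *
            (∏ i : Fin n, if δ i = ω i then (1 + ((m : ℝ) - 1) * ρ) / m else (1 - ρ) / m) *
            f δ j
        ≤ ∑ j : Fin m, ((m : ℝ) ^ N)⁻¹ *
            ∑ ω : Fin N → Fin m, ∑ δ : Fin N → Fin m,
              (if (∃ k : Fin m, ∀ l : Fin m, l ≠ k →
                    (Finset.univ.filter (fun i => ω i = l)).card <
                      (Finset.univ.filter (fun i => ω i = k)).card)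
                then (if (∀ l : Fin m, l ≠ j →
                    (Finset.univ.filter (fun i => ω i = l)).card <
                      (Finset.univ.filter (fun i => ω i = j)).card) then (1 : ℝ) else 0)
                else (m : ℝ)⁻¹) *
              (∏ i : Fin N, if δ i = ω i then (1 + ((m : ℝ) - 1) * ρ) / m else (1 - ρ) / m) *
              (if (∃ k : Fin m, ∀ l : Fin m, l ≠ k →
                    (Finset.univ.filter (fun i => δ i = l)).card <
                      (Finset.univ.filter (fun i => δ i = k)).card)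
                then (if (∀ l : Fin m, l ≠ j →
                    (Finset.univ.filter (fun i => δ i = l)).card <
                      (Finset.univ.filter (fun i => δ i = j)).card) then (1 : ℝ) else 0)
                else (m : ℝ)⁻¹)
          + ρ ^ 2 * (1 - 1 / (m : ℝ)
              - (∫ g : Fin m → ℝ, (⨆ j, g j) ∂(Measure.pi fun _ : Fin m => gaussianReal 0 1)) ^ 2
                / ((m : ℝ) - 1))
          + ρ * ε := by
  intro m hm ε hε
  obtain ⟨τ, hτ, N₀, h⟩ := Pool.H65.PS.main_ineq m hm ε hε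
  refine ⟨τ, hτ, N₀, fun N hN ρ h0 h1 n f hf hb hi => ?_⟩
  have := h N hN ρ h0 h1 n f hf hb hi
  refine le_of_le_of_eq (le_of_eq_of_le ?_ this) ?_
  · rfl
  · unfold Pool.H65.PS.stab Pool.H65.PS.plur Pool.H65.PS.cnt Pool.H65.PS.MM Pool.H65.PS.gam
    congr!

end Pool.Agent.Results.MP_c6cf29_pr.FirstOrder
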