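import Pool.Agent.Helper65.PT.Fin

set_option autoImplicit false

open MeasureTheory ProbabilityTheory

namespace Pool.Agent.Results.MP_c6cf29_pr.SmallRho

/-- Plurality is stablest for every number `m ≥ 2` of candidates and all sufficiently small correlations: for
every `m ≥ 2` there is `ρ₀ > 0` such that for every `ρ ∈ [0, ρ₀]` the noise stability of plurality on `n` voters
converges to some `L` and, for every `ε > 0`, there is `τ > 0` such that every balanced simplex-valued `f` on
`[m]^n` (any `n`) with all influences at most `τ` has noise stability at most `L + ε`. -/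
theorem result :
    ∀ m : ℕ, 2 ≤ m → ∃ ρ₀ : ℝ, 0 < ρ₀ ∧ ρ₀ ≤ 1 ∧ ∀ ρ : ℝ, 0 ≤ ρ → ρ ≤ ρ₀ →
      ∃ L : ℝ,
        Filter.Tendsto
          (fun n : ℕ => ∑ j : Fin m, ((m : ℝ) ^ n)⁻¹ *
            ∑ ω : Fin n → Fin m, ∑ δ : Fin n → Fin m,
              (if (∃ k : Fin m, ∀ l : Fin m, l ≠ k →
                    (Finset.univ.filter (fun i => ω i = l)).card <
                      (Finset.univ.filter (fun i => ω i = k)).card)
                then (if (∀ l : Fin m, l ≠ j →
                    (Finset.univ.filter (fun i => ω i = l)).card <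
                      (Finset.univ.filter (fun i => ω i = j)).card) then (1 : ℝ) else 0)
                else (m : ℝ)⁻¹) *
              (∏ i : Fin n, if δ i = ω i then (1 + ((m : ℝ) - 1) * ρ) / m else (1 - ρ) / m) *
              (if (∃ k : Fin m, ∀ l : Fin m, l ≠ k →
                    (Finset.univ.filter (fun i => δ i = l)).card <
                      (Finset.univ.filter (fun i => δ i = k)).card)
                then (if (∀ l : Fin m, l ≠ j →
                    (Finset.univ.filter (fun i => δ i = l)).card <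
                      (Finset.univ.filter (fun i => δ i = j)).card) then (1 : ℝ) else 0)
                else (m : ℝ)⁻¹))
          Filter.atTop (nhds L) ∧
        ∀ ε : ℝ, ε > 0 → ∃ τ : ℝ, τ > 0 ∧
          ∀ n : ℕ, ∀ f : (Fin n → Fin m) → Fin m → ℝ,
            (∀ ω, f ω ∈ stdSimplex ℝ (Fin m)) →
            (∀ j : Fin m, ((m : ℝ) ^ n)⁻¹ * ∑ ω : Fin n → Fin m, f ω j = 1 / (m : ℝ)) →
            (∀ i : Fin n, ∀ j : Fin m,
              ((m : ℝ) ^ n)⁻¹ * ∑ ω : Fin n → Fin m,
                (f ω j - (m : ℝ)⁻¹ * ∑ a : Fin m, f (Function.update ω i a) j) ^ 2 ≤ τ) →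
            ∑ j : Fin m, ((m : ℝ) ^ n)⁻¹ *
              ∑ ω : Fin n → Fin m, ∑ δ : Fin n → Fin m,
                f ω j *
                (∏ i : Fin n, if δ i = ω i then (1 + ((m : ℝ) - 1) * ρ) / m else (1 - ρ) / m) *
                f δ j
              ≤ L + ε := by
  intro m hm
  obtain ⟨ρ0, h0, h1, H⟩ := Pool.H65.PT.small_rho m hm
  refine ⟨ρ0, h0, h1, fun ρ hρ0 hρ1 => ?_⟩
  obtain ⟨hlim, hopt⟩ := H ρ hρ0 hρ1
  refine ⟨Pool.H65.PT.Lam m ρ, ?_, ?_⟩
  · refine (Filter.tendsto_congr fun n => ?_).mp hlim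
    unfold Pool.H65.PS.stab Pool.H65.PS.plur Pool.H65.PS.cnt
    congr!
  · intro ε hε
    obtain ⟨τ, hτ, h⟩ := hopt ε hε
    refine ⟨τ, hτ, fun n f hf hb hi => ?_⟩
    exact h n f hf hb (fun i j => hi i j)

end Pool.Agent.Results.MP_c6cf29_pr.SmallRho
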