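import Pool.Agent.TC.Fin
import Pool.Agent.TC.All

set_option autoImplicit false

open MeasureTheory ProbabilityTheory

namespace Pool.Agent.Results.MP_c6cf29_pr.ThreeCandidates

/-- Plurality is stablest for three candidates and every correlation `ρ ∈ [0, 1/3]`: the noise stability of
plurality with `3` candidates and `n` voters converges to some `L` and, for every `ε > 0`, there is `τ > 0` such
that every balanced simplex-valued `f` on `[3]^n` (any `n`) with all influences at most `τ` has noise stability at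
most `L + ε`. -/
theorem result :
    ∀ ρ : ℝ, 0 ≤ ρ → ρ ≤ 1 / 3 →
      ∃ L : ℝ,
        Filter.Tendsto
          (fun n : ℕ => ∑ j : Fin 3, (((3 : ℕ) : ℝ) ^ n)⁻¹ *
            ∑ ω : Fin n → Fin 3, ∑ δ : Fin n → Fin 3,
              (if (∃ k : Fin 3, ∀ l : Fin 3, l ≠ k →
                    (Finset.univ.filter (fun i => ω i = l)).card <
                      (Finset.univ.filter (fun i => ω i = k)).card)
                then (if (∀ l : Fin 3, l ≠ j →
                    (Finset.univ.filter (fun i => ω i = l)).card <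
                      (Finset.univ.filter (fun i => ω i = j)).card) then (1 : ℝ) else 0)
                else ((3 : ℕ) : ℝ)⁻¹) *
              (∏ i : Fin n, if δ i = ω i then (1 + (((3 : ℕ) : ℝ) - 1) * ρ) / ((3 : ℕ) : ℝ)
                else (1 - ρ) / ((3 : ℕ) : ℝ)) *
              (if (∃ k : Fin 3, ∀ l : Fin 3, l ≠ k →
                    (Finset.univ.filter (fun i => δ i = l)).card <
                      (Finset.univ.filter (fun i => δ i = k)).card)
                then (if (∀ l : Fin 3, l ≠ j →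
                    (Finset.univ.filter (fun i => δ i = l)).card <
                      (Finset.univ.filter (fun i => δ i = j)).card) then (1 : ℝ) else 0)
                else ((3 : ℕ) : ℝ)⁻¹))
          Filter.atTop (nhds L) ∧
        ∀ ε : ℝ, ε > 0 → ∃ τ : ℝ, τ > 0 ∧
          ∀ n : ℕ, ∀ f : (Fin n → Fin 3) → Fin 3 → ℝ,
            (∀ ω, f ω ∈ stdSimplex ℝ (Fin 3)) →
            (∀ j : Fin 3, (((3 : ℕ) : ℝ) ^ n)⁻¹ * ∑ ω : Fin n → Fin 3, f ω j = 1 / ((3 : ℕ) : ℝ)) →
            (∀ i : Fin n, ∀ j : Fin 3,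
              (((3 : ℕ) : ℝ) ^ n)⁻¹ * ∑ ω : Fin n → Fin 3,
                (f ω j - ((3 : ℕ) : ℝ)⁻¹ * ∑ a : Fin 3, f (Function.update ω i a) j) ^ 2 ≤ τ) →
            ∑ j : Fin 3, (((3 : ℕ) : ℝ) ^ n)⁻¹ *
              ∑ ω : Fin n → Fin 3, ∑ δ : Fin n → Fin 3,
                f ω j *
                (∏ i : Fin n, if δ i = ω i then (1 + (((3 : ℕ) : ℝ) - 1) * ρ) / ((3 : ℕ) : ℝ)
                  else (1 - ρ) / ((3 : ℕ) : ℝ)) *
                f δ j
              ≤ L + ε := by
  intro ρ hρ0 hρ1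
  obtain ⟨hlim, hopt⟩ := Pool.TC.three Pool.TC.allG ρ hρ0 hρ1
  refine ⟨Pool.H65.PT.Lam 3 ρ, ?_, ?_⟩
  · refine (Filter.tendsto_congr fun n => ?_).mp hlim
    unfold Pool.H65.PS.stab Pool.H65.PS.plur Pool.H65.PS.cnt
    congr!
  · intro ε hε
    obtain ⟨τ, hτ, h⟩ := hopt ε hε
    refine ⟨τ, hτ, fun n f hf hb hi => ?_⟩
    exact h n f hf hb (fun i j => hi i j)

end Pool.Agent.Results.MP_c6cf29_pr.ThreeCandidates
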